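import Pool.Agent.L5helper34.GL.Nec

/-!
# The weights for the weighted `g_λ^*` inequality

For `λ > 0` and `1 < p < 2` (in particular for `1 < λ ≤ 2` and `2/λ < p < 2`) the inequality
`∫ (g_λ^* f)^p U ≤ C ∫ |f|^p U` holds for all `f` if and only if `U ∈ A_p ∩ B_{λp/2}`.

Proof. The class `B_r` improves itself: `B_r` gives `U(2^k I) ≤ C 2^{k(r - ε)} U(I)`. A change of aperture
with this growth reduces `g_λ^*` to an area function over Whitney boxes, and the area function is bounded in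
`L^p(U)`, `U ∈ A_p`, by random signs and a uniform weighted bound for Calderon-Zygmund operators.
The converse is proved with test functions.
-/

namespace Pool.Agent.Results.MP_842e08_an.GStarWeights

open MeasureTheory
open scoped ENNReal NNReal

/-- A weight: a nonnegative locally integrable function on the line. -/
structure IsWeight (U : ℝ → ℝ) : Prop where
  nonneg : ∀ x, 0 ≤ U x
  loc : LocallyIntegrable U volume

/-- The Poisson integral `f(z,y) = (1/π) ∫ y f(z - x) / (x² + y²) dx`. -/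
noncomputable def poisson (f : ℝ → ℂ) (z y : ℝ) : ℂ :=
  (1 / Real.pi) • ∫ x : ℝ, (y / (x ^ 2 + y ^ 2)) • f (z - x)

/-- `|∇ f(z,y)|²`, the gradient being taken in `(z,y)`. -/
noncomputable def gradSq (f : ℝ → ℂ) (z y : ℝ) : ℝ :=
  ‖deriv (fun z' => poisson f z' y) z‖ ^ 2 + ‖deriv (fun y' => poisson f z y') y‖ ^ 2

/-- `g_λ^*(x) = (∫_{-∞}^∞ ∫_0^∞ (y / (|x - z| + y))^λ |∇ f(z,y)|² dy dz)^{1/2}`. -/
noncomputable def gStar (lam : ℝ) (f : ℝ → ℂ) (x : ℝ) : ℝ≥0∞ :=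
  (∫⁻ z : ℝ, ∫⁻ y in Set.Ioi (0:ℝ), ENNReal.ofReal ((y / (|x - z| + y)) ^ lam * gradSq f z y)) ^ (1 / 2 : ℝ)

/-- The inequality `∫ (g_λ^*)^p U ≤ C ∫ |f|^p U`, with `C` independent of `f`, for all measurable `f` with
finite right side. -/
def WeightedIneq (lam p : ℝ) (U : ℝ → ℝ) : Prop :=
  ∃ C : ℝ≥0, ∀ f : ℝ → ℂ, AEStronglyMeasurable f volume →
    ∫⁻ x, ‖f x‖ₑ ^ p * ENNReal.ofReal (U x) ≠ ∞ →
    ∫⁻ x, gStar lam f x ^ p * ENNReal.ofReal (U x) ≤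
      C * ∫⁻ x, ‖f x‖ₑ ^ p * ENNReal.ofReal (U x)

/-- The class `A_r`:
`(|I|⁻¹ ∫_I U) (|I|⁻¹ ∫_I U^{-1/(r-1)})^{r-1} ≤ C` for every interval `I = [a,b]`. -/
def ClassA (r : ℝ) (U : ℝ → ℝ) : Prop :=
  ∃ C : ℝ≥0, ∀ a b : ℝ, a < b →
    (∫⁻ x in Set.Icc a b, ENNReal.ofReal (U x)) / ENNReal.ofReal (b - a) *
      ((∫⁻ x in Set.Icc a b, ENNReal.ofReal (U x) ^ (-(1 / (r - 1)))) / ENNReal.ofReal (b - a)) ^ (r - 1) ≤ C

/-- The class `B_r`:
`∫ |I|^{r-1} U(x) / (|I|^r + |x - x_I|^r) dx ≤ (C / |I|) ∫_I U` for every interval `I = [a,b]`, whose center is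
`x_I = (a + b) / 2`. -/
def ClassB (r : ℝ) (U : ℝ → ℝ) : Prop :=
  ∃ C : ℝ≥0, ∀ a b : ℝ, a < b →
    ∫⁻ x, ENNReal.ofReal ((b - a) ^ (r - 1) * U x / ((b - a) ^ r + |x - (a + b) / 2| ^ r)) ≤
      C / ENNReal.ofReal (b - a) * ∫⁻ x in Set.Icc a b, ENNReal.ofReal (U x)

/-- **The weighted `g_λ^*` inequality holds exactly for the weights in `A_p ∩ B_{λp/2}`.** -/
theorem result (lam p : ℝ) (hlam : 0 < lam) (hp1 : 1 < p) (hp2 : p < 2) (U : ℝ → ℝ) (hU : IsWeight U) :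
    WeightedIneq lam p U ↔ ClassA p U ∧ ClassB (lam * p / 2) U :=
  Pool.Agent.L5helper34.GL.star_iff hlam hp1 hp2 hU.nonneg hU.loc

end Pool.Agent.Results.MP_842e08_an.GStarWeights
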