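import Pool.Agent.L5helper3.BWeights.Self

/-!
# The classes `B_r` are open, and the weights for the `g_λ^*` inequality

The weights for the inequality `(∗)` for `g_λ^*`, `2 / λ < p < 2`, lie between the classes
`⋃_{q < λ p / 2} A_p ∩ B_q` (sufficient, Stromberg-Torchinsky) and `A_p ∩ B_{λ p / 2}` (necessary). We
prove that these two classes are equal: every weight in `B_r`, `r > 1`, lies in `B_q` for some
`q < r`. So `(∗)` holds if and only if `U ∈ A_p ∩ B_{λ p / 2}`.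

The proof: let `a_k = 2 ^ (- k r) U(2 ^ k I)`. The condition `B_r` for the interval `2 ^ k I` says that
`∑_{j ≥ k} a_j ≤ D a_k`. Hence `T_k = ∑_{j ≥ k} a_j` satisfies `T_{k+1} = T_k - a_k ≤ (1 - 1 / D) T_k`, and
`a_k ≤ D (1 - 1 / D) ^ k a_0`, that is `U(2 ^ k I) ≤ D 2 ^ (k (r - ε)) U(I)` with `ε > 0`.

(The idea is due to helper79.)
-/

set_option autoImplicit false

noncomputable section

namespace Pool.Agent.Results.MP_842e08_an.OpenClasses

open MeasureTheory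
open scoped ENNReal NNReal

/-- A weight: nonnegative and locally integrable. -/
def IsWeight (U : ℝ → ℝ) : Prop := (∀ x, 0 ≤ U x) ∧ LocallyIntegrable U

/-- The class `A_r` (with `0 ^ (- s) = ∞` for `s > 0`). -/
def ClassA (r : ℝ) (U : ℝ → ℝ) : Prop :=
  ∃ C : ℝ≥0, ∀ a b : ℝ, a < b →
    (ENNReal.ofReal (1 / (b - a)) * ∫⁻ x in Set.Ioo a b, ENNReal.ofReal (U x)) *
      (ENNReal.ofReal (1 / (b - a)) *
        ∫⁻ x in Set.Ioo a b, ENNReal.ofReal (U x) ^ (-(1 / (r - 1)))) ^ (r - 1) ≤ C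

/-- The class `B_r`. -/
def ClassB (r : ℝ) (U : ℝ → ℝ) : Prop :=
  ∃ C : ℝ≥0, ∀ a b : ℝ, a < b →
    ∫⁻ x, ENNReal.ofReal ((b - a) ^ (r - 1) * U x / ((b - a) ^ r + |x - (a + b) / 2| ^ r)) ≤
      C * (ENNReal.ofReal (1 / (b - a)) * ∫⁻ x in Set.Ioo a b, ENNReal.ofReal (U x))

/-- The Poisson integral `f(z, y)`. -/
def poisson (f : ℝ → ℝ) (z y : ℝ) : ℝ := 1 / Real.pi * ∫ x, y * f (z - x) / (x ^ 2 + y ^ 2)

/-- `|∇f(z, y)| ^ 2`. -/
def gradSq (f : ℝ → ℝ) (z y : ℝ) : ℝ :=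
  deriv (fun t => poisson f t y) z ^ 2 + deriv (fun s => poisson f z s) y ^ 2

/-- The function `g_λ^*(x)`. -/
def gStar (lam : ℝ) (f : ℝ → ℝ) (x : ℝ) : ℝ≥0∞ :=
  (∫⁻ z, ∫⁻ y in Set.Ioi (0 : ℝ),
    ENNReal.ofReal ((y / (|x - z| + y)) ^ lam * gradSq f z y)) ^ (1 / 2 : ℝ)

/-- The inequality `(∗)`. -/
def Star (lam p : ℝ) (U : ℝ → ℝ) : Prop :=
  ∃ C : ℝ≥0, ∀ f : ℝ → ℝ, AEMeasurable f → ∫⁻ x, ENNReal.ofReal (|f x| ^ p * U x) < ∞ →
    ∫⁻ x, gStar lam f x ^ p * ENNReal.ofReal (U x) ≤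
      C * ∫⁻ x, ENNReal.ofReal (|f x| ^ p * U x)

open Pool.Agent.L5helper3.BWeights in
theorem classB_iff {r : ℝ} (U : ℝ → ℝ) (hU : ∀ x, 0 ≤ U x) :
    ClassB r U ↔ ∃ C : ℝ≥0, BB r (fun x => ENNReal.ofReal (U x)) C := by
  have key : ∀ c h x : ℝ, 0 < h →
      ENNReal.ofReal ((2 * h) ^ (r - 1) * U x / ((2 * h) ^ r + |x - c| ^ r)) =
      ENNReal.ofReal (1 / (2 * h)) * (ENNReal.ofReal (U x) *
        ENNReal.ofReal (K r (|x - c| / (2 * h)))) := by
    intro c h x hh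
    rw [← ENNReal.ofReal_mul (hU x), ← ENNReal.ofReal_mul (by positivity)]
    congr 1
    have h1 : (2 * h) ^ (r - 1) = (2 * h) ^ r / (2 * h) := Real.rpow_sub_one (by positivity) r
    have h2 : 0 < (2 * h) ^ r := by positivity
    have h3 : 0 ≤ |x - c| ^ r := by positivity
    rw [h1, K, Real.div_rpow (abs_nonneg _) (by positivity)]
    field_simp
  have key2 : ∀ c h : ℝ, 0 < h →
      (∫⁻ x, ENNReal.ofReal ((2 * h) ^ (r - 1) * U x / ((2 * h) ^ r + |x - c| ^ r))) =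
      ENNReal.ofReal (1 / (2 * h)) * ∫⁻ x, ENNReal.ofReal (U x) *
        ENNReal.ofReal (K r (|x - c| / (2 * h))) := by
    intro c h hh
    rw [← lintegral_const_mul' _ _ ENNReal.ofReal_ne_top]
    exact lintegral_congr fun x => key c h x hh
  constructor
  · rintro ⟨C, hC⟩
    refine ⟨C, fun c h hh => ?_⟩
    have h1 := hC (c - h) (c + h) (by linarith)
    have e1 : c + h - (c - h) = 2 * h := by ring
    have e2 : (c - h + (c + h)) / 2 = c := by ring
    rw [e1, e2, key2 c h hh, mul_left_comm] at h1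
    have h2 : ENNReal.ofReal (1 / (2 * h)) ≠ 0 := by
      rw [Ne, ENNReal.ofReal_eq_zero, not_le]
      positivity
    exact (ENNReal.mul_le_mul_iff_right h2 ENNReal.ofReal_ne_top).1 h1
  · rintro ⟨C, hC⟩
    refine ⟨C, fun a b hab => ?_⟩
    have h1 := hC ((a + b) / 2) ((b - a) / 2) (by linarith)
    have h2 := key2 ((a + b) / 2) ((b - a) / 2) (by linarith)
    have e1 : 2 * ((b - a) / 2) = b - a := by ring
    rw [e1] at h1 h2
    rw [h2, mul_left_comm]
    have e3 : m (fun x => ENNReal.ofReal (U x)) ((a + b) / 2) ((b - a) / 2) =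
        ∫⁻ x in Set.Ioo a b, ENNReal.ofReal (U x) := by
      rw [m]
      congr 3 <;> ring
    rw [e3] at h1
    gcongr

/-- **Main result.** -/
theorem result :
    -- the classes `B_r` are open (and increasing)
    (∀ (r : ℝ) (U : ℝ → ℝ), 1 < r → IsWeight U → ClassB r U → ∃ q, 1 < q ∧ q < r ∧ ClassB q U) ∧
    -- Stromberg-Torchinsky's sufficient condition and the necessary condition are equivalent
    (∀ (lam p : ℝ) (U : ℝ → ℝ), 1 < lam → lam ≤ 2 → 2 / lam < p → p < 2 → IsWeight U →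
      ((ClassA p U ∧ ClassB (lam * p / 2) U) ↔
        ∃ q, 1 < q ∧ q < min (lam * p / 2) lam ∧ ClassA p U ∧ ClassB q U)) ∧
    -- with the two facts which are known, this determines the weights
    (∀ lam p : ℝ, 1 < lam → lam ≤ 2 → 2 / lam < p → p < 2 →
      (∀ U, IsWeight U → Star lam p U → ClassA p U ∧ ClassB (lam * p / 2) U) →
      (∀ U q, IsWeight U → 1 < q → q < min (lam * p / 2) lam → ClassA p U → ClassB q U →
        Star lam p U) →
      ∀ U, IsWeight U → (Star lam p U ↔ ClassA p U ∧ ClassB (lam * p / 2) U)) := by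
  have h1 : ∀ (r : ℝ) (U : ℝ → ℝ), 1 < r → IsWeight U → ClassB r U →
      ∃ q, 1 < q ∧ q < r ∧ ClassB q U := by
    intro r U hr hU hB
    obtain ⟨C, hC⟩ := (classB_iff U hU.1).1 hB
    obtain ⟨q, hq1, hqr, hq⟩ := Pool.Agent.L5helper3.BWeights.self_improve hr
      (hU.2.aestronglyMeasurable.aemeasurable.ennreal_ofReal) hC (fun c h => by
        have h2 : IntegrableOn U (Set.Ioo (c - h) (c + h)) :=
          (hU.2.integrableOn_isCompact isCompact_Icc).mono_set Set.Ioo_subset_Icc_self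
        have h3 := h2.2
        rw [hasFiniteIntegral_iff_ofReal (Filter.Eventually.of_forall fun x => hU.1 x)] at h3
        exact h3.ne)
    exact ⟨q, hq1, hqr, (classB_iff U hU.1).2 hq⟩
  have h2 : ∀ (lam p : ℝ) (U : ℝ → ℝ), 1 < lam → lam ≤ 2 → 2 / lam < p → p < 2 → IsWeight U →
      ((ClassA p U ∧ ClassB (lam * p / 2) U) ↔
        ∃ q, 1 < q ∧ q < min (lam * p / 2) lam ∧ ClassA p U ∧ ClassB q U) := by
    intro lam p U hl1 hl2 hp1 hp2 hU
    have hr : 1 < lam * p / 2 := by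
      rw [div_lt_iff₀ (by linarith)] at hp1
      linarith
    have hmin : min (lam * p / 2) lam = lam * p / 2 := min_eq_left (by nlinarith)
    rw [hmin]
    constructor
    · rintro ⟨hA, hB⟩
      obtain ⟨q, hq1, hqr, hq⟩ := h1 _ U hr hU hB
      exact ⟨q, hq1, hqr, hA, hq⟩
    · rintro ⟨q, hq1, hqr, hA, hq⟩
      refine ⟨hA, ?_⟩
      obtain ⟨C, hC⟩ := (classB_iff U hU.1).1 hq
      exact (classB_iff U hU.1).2
        ⟨2 * C, Pool.Agent.L5helper3.BWeights.BB_mono hqr.le (by linarith) hC⟩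
  refine ⟨h1, h2, ?_⟩
  intro lam p hl1 hl2 hp1 hp2 hnec hsuf U hU
  refine ⟨hnec U hU, fun hAB => ?_⟩
  obtain ⟨q, hq1, hqr, hA, hq⟩ := (h2 lam p U hl1 hl2 hp1 hp2 hU).1 hAB
  exact hsuf U q hU hq1 hqr hA hq

end Pool.Agent.Results.MP_842e08_an.OpenClasses
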